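import Mathlib
import Pool.Agent.MP_c36b31_co.Main

/-! Quantitative colourful Tverberg theorem for volume with any number `n ≥ d + 1` of colour
classes, in particular with `n = 2 * d` classes. -/

namespace Pool.Agent.Results.MP_c36b31_co.QuantTverberg

open MeasureTheory

theorem result : ∀ d : ℕ, 1 ≤ d → ∃ v : ℝ, 0 < v ∧ ∀ n : ℕ, d + 1 ≤ n → ∀ r : ℕ, 1 ≤ r →
    ∃ f : ℕ, ∀ (ι : Type) (K : ι → Set (Fin d → ℝ)) (F : Fin n → Finset ι),
      (∀ j, (F j).card = f) → (∀ j, ∀ a ∈ F j, Convex ℝ (K a) ∧ volume (K a) = 1) →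
      ∃ T : Fin r → Fin n → ι, (∀ i j, T i j ∈ F j) ∧
        (∀ i i' j j', T i j = T i' j' → i = i') ∧
        ENNReal.ofReal v ≤ volume (⋂ i, convexHull ℝ (⋃ j, K (T i j))) := by
  classical
  intro d hd
  obtain ⟨m, rfl⟩ : ∃ m, d = m + 1 := ⟨d - 1, by omega⟩
  obtain ⟨v, hv, h⟩ := Pool.Agent.MP_c36b31_co.indexed m
  refine ⟨v, hv, fun n hn r _ => ?_⟩
  obtain ⟨N, hN⟩ := h n hn r
  refine ⟨n * N, fun ι K F hF hK => ?_⟩
  obtain ⟨e, he, heF⟩ := (Finset.all_card_le_biUnion_card_iff_exists_injective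
    fun k : Fin n × Fin N => F k.1).1 (by
      intro s
      rcases s.eq_empty_or_nonempty with rfl | ⟨k, hk⟩
      · simp
      · calc s.card ≤ n * N := by simpa using s.card_le_univ
          _ = (F k.1).card := (hF _).symm
          _ ≤ _ := Finset.card_le_card
            (Finset.subset_biUnion_of_mem (fun k : Fin n × Fin N => F k.1) hk))
  obtain ⟨T, hT, hvol⟩ := hN (fun j k => K (e (j, k))) fun j k => (hK j _ (heF (j, k))).2
  refine ⟨fun i j => e (j, T i j), fun i j => heF (j, T i j), fun i i' j j' hij => ?_, hvol⟩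
  obtain ⟨rfl, h2⟩ := Prod.mk.inj (he hij)
  exact hT j h2

end Pool.Agent.Results.MP_c36b31_co.QuantTverberg
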